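import Mathlib

/-! # Real analysis for the fact F4 of project HK -/

set_option autoImplicit false

namespace Pool.Agent.Y141.HK

/-- the point `l3(t')` from the point `Z` and the point `P = l1(t)` -/
theorem rep_pt (A1 D1 A3 D3 s0 s1 t t' Y : ℝ) (h0 : t - s0 ≠ 0) (h1 : t - s1 ≠ 0) :
    A3 + t' * D3 = (A1 + t * D1) +
      ((t - s0) / (t - s1)) * ((A1 + s1 * D1 + Y * D3) - (A1 + t * D1)) -
      ((t - s0) / (t - s1)) * (Y - (t' - s0) * (t - s1) / (t - s0)) * D3 -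
      ((A1 + s0 * D1) - (A3 + s0 * D3)) := by
  field_simp
  ring

theorem rep_ht (s0 s1 t t' Y : ℝ) (h0 : t - s0 ≠ 0) (h1 : t - s1 ≠ 0) :
    ((t - s0) / (t - s1)) * ((s1 + Y) - t - (Y - (t' - s0) * (t - s1) / (t - s0))) = t' - t := by
  field_simp
  ring

/-- comparison of two points `l3(t')` -/
theorem core {n T t t' z P Zx Zy rx ry wx wy Dx Dy ex ey Lx Ly : ℝ}
    (h1 : Lx = P + rx * (Zx - P) - rx * wx * Dx - ex)
    (h1' : Ly = P + ry * (Zy - P) - ry * wy * Dy - ey)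
    (h2 : rx * (z - t - wx) = t' - t) (h2' : ry * (z - t - wy) = t' - t)
    (h3 : |rx| * |Zx - P| ≤ 2 * n + |rx| / 2) (h4 : |Zx - Zy| ≤ 1)
    (hwx : |wx| ≤ 1 / 2) (hwy : |wy| ≤ 1 / 2) (hDx0 : 0 ≤ Dx) (hDx1 : Dx ≤ 1)
    (hDy0 : 0 ≤ Dy) (hDy1 : Dy ≤ 1) (hex : |ex| ≤ 1) (hey : |ey| ≤ 1)
    (hrx : |rx| ≤ T) (hT : |t' - t| = T) (hT1 : 1 ≤ T) (hTn : T ≤ n) :
    |Lx - Ly| ≤ (|rx| + |ry|) * (5 / 2) * (n / T) + |ry| + (|rx| + |ry|) / 2 + 2 := by
  have arx := abs_nonneg rx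
  have ary := abs_nonneg ry
  have awx := abs_nonneg wx
  have awy := abs_nonneg wy
  have m1 : |rx * wx| ≤ |rx| / 2 := by
    rw [abs_mul]
    nlinarith
  have m2 : |ry * wy| ≤ |ry| / 2 := by
    rw [abs_mul]
    nlinarith
  have k1 : |rx - ry| * |z - t| ≤ (|rx| + |ry|) / 2 := by
    have h5 : (rx - ry) * (z - t) = rx * wx - ry * wy := by linarith
    rw [← abs_mul, h5]
    have h6 := abs_sub (rx * wx) (ry * wy)
    linarith
  have k2 : T / 2 ≤ |rx| * |z - t| := by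
    have h5 : rx * (z - t) = (t' - t) + rx * wx := by linarith
    rw [← abs_mul, h5]
    have h6 := abs_sub_abs_le_abs_sub (t' - t) (-(rx * wx))
    rw [abs_neg, sub_neg_eq_add] at h6
    linarith
  have hT0 : 0 < T := by linarith
  have k3 : |rx - ry| * |Zx - P| ≤ (|rx| + |ry|) * (5 / 2) * (n / T) := by
    have h5 : (|rx - ry| * |Zx - P|) * (T / 2) ≤ ((|rx| + |ry|) / 2) * (5 / 2 * n) := by
      calc (|rx - ry| * |Zx - P|) * (T / 2) ≤ (|rx - ry| * |Zx - P|) * (|rx| * |z - t|) :=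
            mul_le_mul_of_nonneg_left k2 (by positivity)
        _ = (|rx - ry| * |z - t|) * (|rx| * |Zx - P|) := by ring
        _ ≤ ((|rx| + |ry|) / 2) * (5 / 2 * n) :=
            mul_le_mul k1 (by linarith) (by positivity) (by positivity)
    have h6 : (|rx| + |ry|) * (5 / 2) * (n / T) = (((|rx| + |ry|) / 2) * (5 / 2 * n)) / (T / 2) := by
      field_simp
    rw [h6, le_div_iff₀ (by positivity)]
    exact h5
  have e : Lx - Ly = (rx - ry) * (Zx - P) + ry * (Zx - Zy) - (rx * wx) * Dx + (ry * wy) * Dy -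
      ex + ey := by
    rw [h1, h1']
    ring
  have b1 : |(rx - ry) * (Zx - P)| ≤ (|rx| + |ry|) * (5 / 2) * (n / T) := by
    rw [abs_mul]
    exact k3
  have b2 : |ry * (Zx - Zy)| ≤ |ry| := by
    rw [abs_mul]
    nlinarith [abs_nonneg (Zx - Zy)]
  have b3 : |(rx * wx) * Dx| ≤ |rx| / 2 := by
    rw [abs_mul, abs_of_nonneg hDx0]
    nlinarith [abs_nonneg (rx * wx)]
  have b4 : |(ry * wy) * Dy| ≤ |ry| / 2 := by
    rw [abs_mul, abs_of_nonneg hDy0]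
    nlinarith [abs_nonneg (ry * wy)]
  rw [e]
  rw [abs_le] at b1 b2 b3 b4 hex hey ⊢
  constructor
  · linarith [b1.1, b2.1, b3.2, b4.1, hex.2, hey.1]
  · linarith [b1.2, b2.2, b3.1, b4.2, hex.1, hey.2]

/-- the first case of the estimate for `|Z - P|` -/
theorem size_Z {n D1 D3 s0 s1 t t' Y w : ℝ} (h0 : t - s0 ≠ 0) (h1 : t - s1 ≠ 0)
    (hY : Y = (t' - s0) * (t - s1) / (t - s0) + w) (hw : |w| ≤ 1 / 2)
    (hD1 : 0 ≤ D1) (hD1' : D1 ≤ 1) (hD3 : 0 ≤ D3) (hD3' : D3 ≤ 1)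
    (hts : |t - s0| ≤ n) (hts' : |t' - s0| ≤ n) (P A1 : ℝ) (hP : P = A1 + t * D1) :
    |(t - s0) / (t - s1)| * |(A1 + s1 * D1 + Y * D3) - P| ≤
      2 * n + |(t - s0) / (t - s1)| / 2 := by
  have e : ((t - s0) / (t - s1)) * ((A1 + s1 * D1 + Y * D3) - P) =
      -(t - s0) * D1 + (t' - s0) * D3 + ((t - s0) / (t - s1)) * w * D3 := by
    rw [hP, hY]
    field_simp
    ring
  rw [← abs_mul, e]
  have b1 : |-(t - s0) * D1| ≤ n := by
    rw [abs_mul, abs_neg, abs_of_nonneg hD1]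
    nlinarith [abs_nonneg (t - s0)]
  have b2 : |(t' - s0) * D3| ≤ n := by
    rw [abs_mul, abs_of_nonneg hD3]
    nlinarith [abs_nonneg (t' - s0)]
  have b3 : |((t - s0) / (t - s1)) * w * D3| ≤ |(t - s0) / (t - s1)| / 2 := by
    rw [abs_mul, abs_mul, abs_of_nonneg hD3]
    have h5 : |(t - s0) / (t - s1)| * |w| ≤ |(t - s0) / (t - s1)| / 2 := by
      nlinarith [abs_nonneg ((t - s0) / (t - s1))]
    have h6 : 0 ≤ |(t - s0) / (t - s1)| * |w| := by positivity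
    nlinarith
  have h7 := abs_add_le (-(t - s0) * D1 + (t' - s0) * D3) (((t - s0) / (t - s1)) * w * D3)
  have h8 := abs_add_le (-(t - s0) * D1) ((t' - s0) * D3)
  linarith

/-- the trivial bound -/
theorem triv {n A1 D1 A3 D3 s0 t t' : ℝ} (he : |(A1 + s0 * D1) - (A3 + s0 * D3)| ≤ 1)
    (hD1 : 0 ≤ D1) (hD1' : D1 ≤ 1) (hD3 : 0 ≤ D3) (hD3' : D3 ≤ 1)
    (hts : |t - s0| ≤ n) (hts' : |t' - s0| ≤ n) :
    |(A3 + t' * D3) - (A1 + t * D1)| ≤ 2 * n + 1 := by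
  have e : (A3 + t' * D3) - (A1 + t * D1) =
      -(t - s0) * D1 + (t' - s0) * D3 - ((A1 + s0 * D1) - (A3 + s0 * D3)) := by ring
  rw [e]
  have b1 : |-(t - s0) * D1| ≤ n := by
    rw [abs_mul, abs_neg, abs_of_nonneg hD1]
    nlinarith [abs_nonneg (t - s0)]
  have b2 : |(t' - s0) * D3| ≤ n := by
    rw [abs_mul, abs_of_nonneg hD3]
    nlinarith [abs_nonneg (t' - s0)]
  have h7 := abs_sub (-(t - s0) * D1 + (t' - s0) * D3) ((A1 + s0 * D1) - (A3 + s0 * D3))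
  have h8 := abs_add_le (-(t - s0) * D1) ((t' - s0) * D3)
  linarith

theorem floor_sub {x y R : ℝ} (h : |x - y| ≤ R) : |((⌊x⌋ : ℤ) : ℝ) - ((⌊y⌋ : ℤ) : ℝ)| ≤ R + 1 := by
  have h1 := Int.floor_le x
  have h2 := Int.lt_floor_add_one x
  have h3 := Int.floor_le y
  have h4 := Int.lt_floor_add_one y
  rw [abs_le] at h ⊢
  constructor <;> linarith [h.1, h.2]

end Pool.Agent.Y141.HK
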