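import Pool.Agent.Y254.HK.Stm
import Pool.Agent.W46.HD.Tools
import Pool.Agent.Y141.HK.F4R

/-! # The fact F4 of project HK -/

set_option autoImplicit false

open Finset
open scoped Classical

namespace Pool.Agent.Y141.HK
open Pool.Agent.W904.AK Pool.Agent.W46.HD Pool.Agent.W46.HM Pool.Agent.Y244.HM
  Pool.Agent.W597.HD Pool.Agent.Y254HK

/-- `n / max 1 |i - j|` -/
noncomputable def rt (n i j : ℕ) : ℝ := (n : ℝ) / max 1 |(i : ℝ) - (j : ℝ)|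

theorem one_le_rt {n i j : ℕ} (hi : i < n) (hj : j < n) : 1 ≤ rt n i j := by
  unfold rt
  have hn : (1 : ℝ) ≤ n := by exact_mod_cast (by omega : 1 ≤ n)
  have hi' : (i : ℝ) < n := by exact_mod_cast hi
  have hj' : (j : ℝ) < n := by exact_mod_cast hj
  have hi0 : (0 : ℝ) ≤ i := Nat.cast_nonneg _
  have hj0 : (0 : ℝ) ≤ j := Nat.cast_nonneg _
  rw [le_div_iff₀ (lt_of_lt_of_le one_pos (le_max_left _ _)), one_mul]
  refine max_le hn ?_
  rw [abs_le]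
  constructor <;> linarith

theorem rt_le (n i j : ℕ) : rt n i j ≤ n := by
  unfold rt
  exact div_le_self (Nat.cast_nonneg _) (le_max_left _ _)

theorem psi_eq (n i j : ℕ) : psi n i j = Real.log (rt n i j) := rfl

theorem pz_eq {n i j : ℕ} (hi : i < n) (hj : j < n) :
    pz n ((i : ℕ) : ℤ) ((j : ℕ) : ℤ) = Real.log (rt n i j) := by
  have h := one_le_rt hi hj
  unfold pz
  rw [Int.cast_natCast, Int.cast_natCast]
  unfold rt at h ⊢
  rw [max_eq_right h]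

theorem rt_eq {n i j : ℕ} (h : (i : ℝ) - j = 0) : rt n i j = n := by
  unfold rt
  rw [h, abs_zero, max_eq_left zero_le_one, div_one]

theorem one_le_abs {i j : ℕ} (h : (i : ℝ) - j ≠ 0) : (1 : ℝ) ≤ |(i : ℝ) - j| := by
  have h1 : (1 : ℤ) ≤ |(i : ℤ) - j| := by
    apply Int.one_le_abs
    intro h2
    apply h
    exact_mod_cast h2
  exact_mod_cast h1

theorem rt_ne {n i j : ℕ} (h : (i : ℝ) - j ≠ 0) : rt n i j = n / |(i : ℝ) - j| := by
  unfold rt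
  rw [max_eq_right (one_le_abs h)]

theorem small_log (K ε : ℝ) (hK : 0 ≤ K) (hε : 0 < ε) : ∃ C : ℝ, 0 ≤ C ∧ ∀ n : ℕ, 1 ≤ n →
    K * (1 + Real.log (1 + Real.log n)) ≤ ε * Real.log n + C := by
  obtain ⟨δ, hδ⟩ : ∃ δ, δ = ε / (K + 1) := ⟨_, rfl⟩
  have hδ0 : 0 < δ := by rw [hδ]; positivity
  refine ⟨|K * (δ - Real.log δ)|, abs_nonneg _, fun n hn => ?_⟩
  have hl : 0 ≤ Real.log n := Real.log_natCast_nonneg n
  have h1 : Real.log (δ * (1 + Real.log n)) ≤ δ * (1 + Real.log n) - 1 :=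
    Real.log_le_sub_one_of_pos (by positivity)
  rw [Real.log_mul hδ0.ne' (by positivity)] at h1
  have h2 : K * (1 + Real.log (1 + Real.log n)) ≤ K * (δ * (1 + Real.log n) - Real.log δ) :=
    mul_le_mul_of_nonneg_left (by linarith) hK
  have h3 : K * (δ * (1 + Real.log n) - Real.log δ) =
      (K * δ) * Real.log n + K * (δ - Real.log δ) := by ring
  have h4 : K * δ ≤ ε := by
    rw [hδ, mul_div_assoc', div_le_iff₀ (by positivity)]
    nlinarith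
  have h5 : (K * δ) * Real.log n ≤ ε * Real.log n := mul_le_mul_of_nonneg_right h4 hl
  have h6 := le_abs_self (K * (δ - Real.log δ))
  linarith

/-- the size of the box -/
noncomputable def Rf {Θ : Type} (n : ℕ) (s0 s1 t t' : Θ → Fin n) (z : Θ) : ℝ :=
  7 * rt n (t z) (t' z) * rt n (t z) (s0 z) * rt n (t z) (s1 z)

/-- a degenerate sample -/
theorem bad {n : ℕ} {s0 s1 t t' : ℕ} (h0 : s0 < n) (h1 : s1 < n) (ht : t < n) (ht' : t' < n)
    (hb : ¬ ((t : ℝ) - s0 ≠ 0 ∧ (t : ℝ) - s1 ≠ 0 ∧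
      |((t : ℝ) - s0) / ((t : ℝ) - s1)| ≤ |(t' : ℝ) - t|)) :
    (7 : ℝ) * n ≤ 7 * rt n t t' * rt n t s0 * rt n t s1 := by
  have a1 := one_le_rt ht ht'
  have a2 := one_le_rt ht h0
  have a3 := one_le_rt ht h1
  have hn : (0 : ℝ) ≤ n := Nat.cast_nonneg n
  have e : 7 * rt n t t' * rt n t s0 * rt n t s1 =
      7 * (rt n t s0 * (rt n t t' * rt n t s1)) := by ring
  rw [e]
  apply mul_le_mul_of_nonneg_left _ (by norm_num)
  have a4 : 1 ≤ rt n t t' * rt n t s1 := one_le_mul_of_one_le_of_one_le a1 a3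
  by_cases c0 : (t : ℝ) - s0 = 0
  · rw [rt_eq c0]
    exact le_mul_of_one_le_right hn a4
  by_cases c1 : (t : ℝ) - s1 = 0
  · rw [rt_eq c1]
    have a5 : (n : ℝ) ≤ rt n t t' * n := le_mul_of_one_le_left hn a1
    have a6 : rt n t t' * n ≤ rt n t s0 * (rt n t t' * n) :=
      le_mul_of_one_le_left (by positivity) a2
    linarith
  have c2 : |(t' : ℝ) - t| < |((t : ℝ) - s0) / ((t : ℝ) - s1)| := by
    by_contra h
    exact hb ⟨c0, c1, not_lt.1 h⟩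
  by_cases c3 : (t : ℝ) - t' = 0
  · rw [rt_eq c3]
    have a5 : (n : ℝ) ≤ n * rt n t s1 := le_mul_of_one_le_right hn a3
    have a6 : n * rt n t s1 ≤ rt n t s0 * (n * rt n t s1) :=
      le_mul_of_one_le_left (by positivity) a2
    linarith
  have hA : 0 < |(t : ℝ) - s1| := abs_pos.2 c1
  have hB : 0 < |(t : ℝ) - t'| := abs_pos.2 c3
  have hC : |(t : ℝ) - s0| ≤ n := by
    have h3 : (t : ℝ) < n := by exact_mod_cast ht
    have h4 : (s0 : ℝ) < n := by exact_mod_cast h0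
    have h5 : (0 : ℝ) ≤ t := Nat.cast_nonneg _
    have h6 : (0 : ℝ) ≤ s0 := Nat.cast_nonneg _
    rw [abs_le]
    constructor <;> linarith
  have a5 : (n : ℝ) ≤ rt n t t' * rt n t s1 := by
    rw [rt_ne c3, rt_ne c1, div_mul_div_comm, le_div_iff₀ (by positivity)]
    rw [abs_div, lt_div_iff₀ hA, abs_sub_comm (t' : ℝ) t] at c2
    have h7 : |(t : ℝ) - t'| * |(t : ℝ) - s1| ≤ n := by linarith
    exact mul_le_mul_of_nonneg_left h7 hn
  have a6 : rt n t t' * rt n t s1 ≤ rt n t s0 * (rt n t t' * rt n t s1) :=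
    le_mul_of_one_le_left (by positivity) a2
  linarith

theorem nd {n i j : ℕ} (hi : i < n) (hj : j < n) : |(i : ℝ) - j| ≤ n := by
  have h3 : (i : ℝ) < n := by exact_mod_cast hi
  have h4 : (j : ℝ) < n := by exact_mod_cast hj
  have h5 : (0 : ℝ) ≤ i := Nat.cast_nonneg _
  have h6 : (0 : ℝ) ≤ j := Nat.cast_nonneg _
  rw [abs_le]
  constructor <;> linarith

section

variable {Ω Θ : Type} {d n : ℕ} {A D : Ω → Fin d → ℝ} {l1 l3 : Θ → Ω}
  {s0 s1 t t' : Θ → Fin n}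

/-- the facts for one sample -/
theorem sample (hlo : ∀ ω i, 0 ≤ D ω i) (hhi : ∀ ω i, D ω i ≤ 1) (x : Θ)
    (hx : cell A D (s0 x) (l1 x) = cell A D (s0 x) (l3 x)) (i : Fin d) (ℓ : Ω)
    (T T' : ℕ) (zz : ℤ) (Zc : Fin d → ℤ) (e1 : l1 x = ℓ)
    (e2 : XX A D l1 l3 s0 s1 t t' x = (zz, Zc)) (e3 : ((t x : Fin n) : ℕ) = T)
    (e4 : ((t' x : Fin n) : ℕ) = T') (g1 : (T : ℝ) - (s0 x : ℕ) ≠ 0)
    (g2 : (T : ℝ) - (s1 x : ℕ) ≠ 0) :
    ∃ Zx wx ex : ℝ, ⌊Zx⌋ = Zc i ∧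
      A (l3 x) i + T' * D (l3 x) i = (A ℓ i + T * D ℓ i) +
        (((T : ℝ) - (s0 x : ℕ)) / ((T : ℝ) - (s1 x : ℕ))) * (Zx - (A ℓ i + T * D ℓ i)) -
        (((T : ℝ) - (s0 x : ℕ)) / ((T : ℝ) - (s1 x : ℕ))) * wx * D (l3 x) i - ex ∧
      (((T : ℝ) - (s0 x : ℕ)) / ((T : ℝ) - (s1 x : ℕ))) * ((zz : ℝ) - T - wx) = (T' : ℝ) - T ∧
      |((T : ℝ) - (s0 x : ℕ)) / ((T : ℝ) - (s1 x : ℕ))| * |Zx - (A ℓ i + T * D ℓ i)| ≤
        2 * n + |((T : ℝ) - (s0 x : ℕ)) / ((T : ℝ) - (s1 x : ℕ))| / 2 ∧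
      |wx| ≤ 1 / 2 ∧ |ex| ≤ 1 := by
  subst e1 e3 e4
  obtain ⟨Y, hY⟩ : ∃ Y : ℤ, Y = YY s0 s1 t t' x := ⟨_, rfl⟩
  have hY2 : (Y : ℝ) = ((((t' x : ℕ) : ℝ) - (s0 x : ℕ)) * (((t x : ℕ) : ℝ) - (s1 x : ℕ)) /
      (((t x : ℕ) : ℝ) - (s0 x : ℕ))) + ((Y : ℝ) - ((((t' x : ℕ) : ℝ) - (s0 x : ℕ)) *
      (((t x : ℕ) : ℝ) - (s1 x : ℕ)) / (((t x : ℕ) : ℝ) - (s0 x : ℕ)))) := by ring
  have hw : |(Y : ℝ) - ((((t' x : ℕ) : ℝ) - (s0 x : ℕ)) *
      (((t x : ℕ) : ℝ) - (s1 x : ℕ)) / (((t x : ℕ) : ℝ) - (s0 x : ℕ)))| ≤ 1 / 2 := by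
    rw [hY, abs_sub_comm]
    exact abs_sub_round _
  unfold XX at e2
  rw [← hY, Prod.mk.injEq] at e2
  obtain ⟨e5, e6⟩ := e2
  refine ⟨A (l1 x) i + ((s1 x : ℕ) : ℝ) * D (l1 x) i + (Y : ℝ) * D (l3 x) i,
    (Y : ℝ) - ((((t' x : ℕ) : ℝ) - (s0 x : ℕ)) *
      (((t x : ℕ) : ℝ) - (s1 x : ℕ)) / (((t x : ℕ) : ℝ) - (s0 x : ℕ))),
    (A (l1 x) i + ((s0 x : ℕ) : ℝ) * D (l1 x) i) - (A (l3 x) i + ((s0 x : ℕ) : ℝ) * D (l3 x) i),
    congrFun e6 i, rep_pt _ _ _ _ _ _ _ _ _ g1 g2, ?_, ?_, hw, ?_⟩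
  · rw [← e5]
    push_cast
    exact rep_ht _ _ _ _ _ g1 g2
  · exact size_Z g1 g2 hY2 hw (hlo _ _) (hhi _ _) (hlo _ _) (hhi _ _)
      (nd (t x).2 (s0 x).2) (nd (t' x).2 (s0 x).2) _ _ rfl
  · exact same_floor (congrFun hx i)

/-- the trivial bound -/
theorem trivP (hlo : ∀ ω i, 0 ≤ D ω i) (hhi : ∀ ω i, D ω i ≤ 1) (x : Θ)
    (hx : cell A D (s0 x) (l1 x) = cell A D (s0 x) (l3 x)) (i : Fin d) (ℓ : Ω)
    (T T' : ℕ) (e1 : l1 x = ℓ) (e3 : ((t x : Fin n) : ℕ) = T)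
    (e4 : ((t' x : Fin n) : ℕ) = T') :
    |(A (l3 x) i + T' * D (l3 x) i) - (A ℓ i + T * D ℓ i)| ≤ 2 * n + 1 := by
  subst e1 e3 e4
  exact triv (same_floor (congrFun hx i)) (hlo _ _) (hhi _ _) (hlo _ _) (hhi _ _)
    (nd (t x).2 (s0 x).2) (nd (t' x).2 (s0 x).2)

theorem pair (hn : 1 ≤ n) (hlo : ∀ ω i, 0 ≤ D ω i) (hhi : ∀ ω i, D ω i ≤ 1) (x y : Θ)
    (hx : cell A D (s0 x) (l1 x) = cell A D (s0 x) (l3 x))
    (hy : cell A D (s0 y) (l1 y) = cell A D (s0 y) (l3 y)) (i : Fin d)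
    (hf : (l1 x, XX A D l1 l3 s0 s1 t t' x, t x, t' x) =
      (l1 y, XX A D l1 l3 s0 s1 t t' y, t y, t' y)) :
    |((cell A D (t' x) (l3 x) i : ℤ) : ℝ) - ((cell A D (t' y) (l3 y) i : ℤ) : ℝ)| ≤
      Rf n s0 s1 t t' x + Rf n s0 s1 t t' y := by
  simp only [Prod.mk.injEq] at hf
  obtain ⟨f1, f2, f3, f4⟩ := hf
  have hn1 : (1 : ℝ) ≤ n := by exact_mod_cast hn
  have c4 : ((t' y : Fin n) : ℕ) = ((t' x : Fin n) : ℕ) := by rw [f4]
  have c3 : ((t y : Fin n) : ℕ) = ((t x : Fin n) : ℕ) := by rw [f3]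
  have hRx : 0 ≤ Rf n s0 s1 t t' x := by
    have a1 := one_le_rt (t x).2 (t' x).2
    have a2 := one_le_rt (t x).2 (s0 x).2
    have a3 := one_le_rt (t x).2 (s1 x).2
    unfold Rf
    positivity
  have hRy : 0 ≤ Rf n s0 s1 t t' y := by
    have a1 := one_le_rt (t y).2 (t' y).2
    have a2 := one_le_rt (t y).2 (s0 y).2
    have a3 := one_le_rt (t y).2 (s1 y).2
    unfold Rf
    positivity
  have htr : |((cell A D (t' x) (l3 x) i : ℤ) : ℝ) - ((cell A D (t' y) (l3 y) i : ℤ) : ℝ)| ≤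
      7 * n := by
    have h1 := trivP (t := t) (t' := t') hlo hhi x hx i (l1 x) (t x) (t' x) rfl rfl rfl
    have h2 := trivP (t := t) (t' := t') hlo hhi y hy i (l1 x) (t x) (t' x) f1.symm c3 c4
    have h3 : |(A (l3 x) i + ((t' x : ℕ) : ℝ) * D (l3 x) i) -
        (A (l3 y) i + ((t' y : ℕ) : ℝ) * D (l3 y) i)| ≤ 4 * n + 2 := by
      rw [c4]
      rw [abs_le] at h1 h2 ⊢
      constructor <;> linarith [h1.1, h1.2, h2.1, h2.2]
    have h4 := floor_sub h3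
    unfold cell
    linarith
  by_cases gx : (((t x : ℕ) : ℝ) - (s0 x : ℕ) ≠ 0 ∧ ((t x : ℕ) : ℝ) - (s1 x : ℕ) ≠ 0 ∧
      |(((t x : ℕ) : ℝ) - (s0 x : ℕ)) / (((t x : ℕ) : ℝ) - (s1 x : ℕ))| ≤
        |((t' x : ℕ) : ℝ) - (t x : ℕ)|)
  swap
  · have h1 := bad (s0 x).2 (s1 x).2 (t x).2 (t' x).2 gx
    have h2 : (7 : ℝ) * n ≤ Rf n s0 s1 t t' x := h1
    linarith
  by_cases gy : (((t y : ℕ) : ℝ) - (s0 y : ℕ) ≠ 0 ∧ ((t y : ℕ) : ℝ) - (s1 y : ℕ) ≠ 0 ∧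
      |(((t y : ℕ) : ℝ) - (s0 y : ℕ)) / (((t y : ℕ) : ℝ) - (s1 y : ℕ))| ≤
        |((t' y : ℕ) : ℝ) - (t y : ℕ)|)
  swap
  · have h1 := bad (s0 y).2 (s1 y).2 (t y).2 (t' y).2 gy
    have h2 : (7 : ℝ) * n ≤ Rf n s0 s1 t t' y := h1
    linarith
  -- both samples are generic
  have hay := one_le_rt (t y).2 (s1 y).2
  have hcy := one_le_rt (t y).2 (s0 y).2
  have hax := one_le_rt (t x).2 (s1 x).2
  have hcx := one_le_rt (t x).2 (s0 x).2
  have hb := one_le_rt (t x).2 (t' x).2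
  rw [c3] at gy hay hcy
  rw [c4] at gy
  obtain ⟨gx1, gx2, gx3⟩ := gx
  obtain ⟨gy1, gy2, gy3⟩ := gy
  obtain ⟨Zx, wx, ex, x1, x2, x3, x4, x5, x6⟩ := sample (t := t) (t' := t') hlo hhi x hx i (l1 x)
    (t x) (t' x) (XX A D l1 l3 s0 s1 t t' x).1 (XX A D l1 l3 s0 s1 t t' x).2 rfl rfl rfl rfl
    gx1 gx2
  obtain ⟨Zy, wy, ey, y1, y2, y3, y4, y5, y6⟩ := sample (t := t) (t' := t') hlo hhi y hy i (l1 x)
    (t x) (t' x) (XX A D l1 l3 s0 s1 t t' x).1 (XX A D l1 l3 s0 s1 t t' x).2 f1.symm f2.symm c3 c4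
    gy1 gy2
  have hrx0 : 0 < |(((t x : ℕ) : ℝ) - (s0 x : ℕ)) / (((t x : ℕ) : ℝ) - (s1 x : ℕ))| :=
    abs_pos.2 (div_ne_zero gx1 gx2)
  have hTne : ((t' x : ℕ) : ℝ) - (t x : ℕ) ≠ 0 := by
    intro h
    rw [h, abs_zero] at gx3
    linarith
  have hT1 := one_le_abs hTne
  have hTn := nd (t' x).2 (t x).2
  have hfl : |Zx - Zy| ≤ 1 := same_floor (x1.trans y1.symm)
  have key := core x2 y2 x3 y3 x4 hfl x5 y5 (hlo _ _) (hhi _ _) (hlo _ _) (hhi _ _) x6 y6 gx3 rfl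
    hT1 hTn
  have key2 := floor_sub key
  have hbx : (n : ℝ) / |((t' x : ℕ) : ℝ) - (t x : ℕ)| = rt n (t x) (t' x) := by
    rw [rt_ne (n := n) (i := t x) (j := t' x) (by
      intro h
      apply hTne
      linarith), abs_sub_comm]
  rw [hbx] at key2
  have hr : ∀ s s' : ℕ, s < n → s' < n → ((t x : ℕ) : ℝ) - s' ≠ 0 →
      |(((t x : ℕ) : ℝ) - s) / (((t x : ℕ) : ℝ) - s')| ≤ rt n (t x) s' := by
    intro s s' hs hs' hne
    rw [rt_ne hne, abs_div]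
    exact div_le_div_of_nonneg_right (nd (t x).2 hs) (abs_nonneg _)
  have rx := hr (s0 x) (s1 x) (s0 x).2 (s1 x).2 gx2
  have ry := hr (s0 y) (s1 y) (s0 y).2 (s1 y).2 gy2
  have hcell : |((cell A D (t' x) (l3 x) i : ℤ) : ℝ) - ((cell A D (t' y) (l3 y) i : ℤ) : ℝ)| =
      |((⌊A (l3 x) i + ((t' x : ℕ) : ℝ) * D (l3 x) i⌋ : ℤ) : ℝ) -
        ((⌊A (l3 y) i + ((t' x : ℕ) : ℝ) * D (l3 y) i⌋ : ℤ) : ℝ)| := by
    unfold cell
    rw [c4]
  rw [hcell]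
  refine key2.trans ?_
  unfold Rf
  rw [c3, c4]
  set a := rt n (t x) (s1 x) with ha
  set a' := rt n (t x) (s1 y) with ha'
  set b := rt n (t x) (t' x) with hbdef
  set c := rt n (t x) (s0 x) with hcdef
  set c' := rt n (t x) (s0 y) with hcdef'
  set r := |(((t x : ℕ) : ℝ) - (s0 x : ℕ)) / (((t x : ℕ) : ℝ) - (s1 x : ℕ))| with hrdef
  set r' := |(((t x : ℕ) : ℝ) - (s0 y : ℕ)) / (((t x : ℕ) : ℝ) - (s1 y : ℕ))| with hrdef'
  clear_value a a' b c c' r r'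
  have i1 : (r + r') * (5 / 2) * b ≤ (a + a') * (5 / 2) * b := by
    apply mul_le_mul_of_nonneg_right _ (by linarith)
    linarith
  have i2 : a + a' ≤ (a + a') * b := le_mul_of_one_le_right (by linarith) hb
  have i3 : a * b ≤ 1 * (a * b) * c := by
    rw [one_mul]
    exact le_mul_of_one_le_right (by positivity) hcx
  have i4 : a' * b ≤ 1 * (a' * b) * c' := by
    rw [one_mul]
    exact le_mul_of_one_le_right (by positivity) hcy
  have i5 : 7 * b * c * a + 7 * b * c' * a' = 7 * (1 * (a * b) * c) + 7 * (1 * (a' * b) * c') := by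
    ring
  have i6 : (a + a') * (5 / 2) * b = 5 / 2 * (a * b) + 5 / 2 * (a' * b) := by ring
  have i7 : (a + a') * b = a * b + a' * b := by ring
  rw [i5]
  linarith

end

/-- F4: the cell of `l3(t')` from `l1`, `Z` and the heights `t`, `t'` -/
theorem t_f4 (hBOX : S_BOX) : S_F4 := by
  intro d ε hε
  obtain ⟨CB, hCB, hbox⟩ := hBOX d 6 (by norm_num)
  obtain ⟨C1, hC1, hsl⟩ := small_log CB ε hCB hε
  have hd0 : (0 : ℝ) ≤ d := Nat.cast_nonneg d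
  refine ⟨6 * d + C1, by positivity, ?_⟩
  intro n Ω _ A D hfam p S hp Θ iΘ q l1 l2 l3 s0 s1 t t' τ v hc
  have hq := hc.law
  have hn := hfam.pos
  have hR1 : ∀ x, 1 ≤ Rf n s0 s1 t t' x := by
    intro x
    have a1 := one_le_rt (t x).2 (t' x).2
    have a2 := one_le_rt (t x).2 (s0 x).2
    have a3 := one_le_rt (t x).2 (s1 x).2
    unfold Rf
    exact one_le_mul_of_one_le_of_one_le (one_le_mul_of_one_le_of_one_le
      (one_le_mul_of_one_le_of_one_le (by norm_num) a1) a2) a3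
  have h7 : Real.log 7 ≤ 6 := by
    have := Real.log_le_sub_one_of_pos (show (0 : ℝ) < 7 by norm_num)
    linarith
  have hRl : ∀ x, Real.log (Rf n s0 s1 t t' x) = Real.log 7 + pz n ((t x : ℕ) : ℤ) ((t' x : ℕ) : ℤ) +
      psi n (t x) (s0 x) + psi n (t x) (s1 x) := by
    intro x
    have a1 := one_le_rt (t x).2 (t' x).2
    have a2 := one_le_rt (t x).2 (s0 x).2
    have a3 := one_le_rt (t x).2 (s1 x).2
    unfold Rf
    rw [pz_eq (t x).2 (t' x).2, psi_eq, psi_eq, Real.log_mul (by positivity) (by positivity),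
      Real.log_mul (by positivity) (by positivity), Real.log_mul (by positivity) (by positivity)]
  have hlog : ∀ i j : Fin n, Real.log (rt n i j) ≤ Real.log n := by
    intro i j
    have a1 := one_le_rt i.2 j.2
    exact Real.log_le_log (by linarith) (rt_le n i j)
  have hln : 0 ≤ Real.log n := Real.log_natCast_nonneg n
  have hb := hbox Θ (Ω × (ℤ × (Fin d → ℤ)) × Fin n × Fin n) q
    (fun z => (l1 z, XX A D l1 l3 s0 s1 t t' z, t z, t' z)) (fun z => cell A D (t' z) (l3 z))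
    (Rf n s0 s1 t t') n hn hq (by
      intro x _
      refine ⟨hR1 x, ?_⟩
      rw [hRl, pz_eq (t x).2 (t' x).2, psi_eq, psi_eq]
      have b1 := hlog (t x) (t' x)
      have b2 := hlog (t x) (s0 x)
      have b3 := hlog (t x) (s1 x)
      linarith) (by
      intro x y hx hy hxy i
      exact pair hn hfam.lo hfam.hi x y (hc.i0 x hx) (hc.i0 y hy) i hxy)
  have hE : ∑ x, q x * Real.log (Rf n s0 s1 t t' x) ≤ 6 + 3 * S := by
    have h1 : ∑ x, q x * Real.log (Rf n s0 s1 t t' x) = Real.log 7 +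
        (∑ x, q x * pz n ((t x : ℕ) : ℤ) ((t' x : ℕ) : ℤ)) + (∑ x, q x * psi n (t x) (s0 x)) +
        ∑ x, q x * psi n (t x) (s1 x) := by
      have h2 : ∑ x, q x * Real.log 7 = Real.log 7 := by
        rw [← Finset.sum_mul, hq.total, one_mul]
      conv_rhs => rw [← h2]
      rw [← Finset.sum_add_distrib, ← Finset.sum_add_distrib, ← Finset.sum_add_distrib]
      refine Finset.sum_congr rfl fun x _ => ?_
      rw [hRl]
      ring
    rw [h1]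
    have h3 := hc.tt'
    have h4 := hc.c2.trans hc.sep_le
    have h5 := hc.c3.trans hc.sep_le
    linarith
  have hS0 : 0 ≤ S := by
    refine le_trans ?_ (hc.c2.trans hc.sep_le)
    exact Finset.sum_nonneg fun z _ => mul_nonneg (hq.nonneg z) (psi_nonneg (t z).2 (s0 z).2)
  have hsl' := hsl n hn
  have hdE : (d : ℝ) * ∑ x, q x * Real.log (Rf n s0 s1 t t' x) ≤ d * (6 + 3 * S) :=
    mul_le_mul_of_nonneg_left hE hd0
  unfold F4
  refine hb.trans ?_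
  have hdS : 0 ≤ (d : ℝ) * S := mul_nonneg hd0 hS0
  have hCS : 0 ≤ C1 * S := mul_nonneg hC1 hS0
  have e1 : (6 * (d : ℝ) + C1) * (1 + S) = 6 * d + 6 * (d * S) + C1 + C1 * S := by ring
  have e2 : (d : ℝ) * (6 + 3 * S) = 6 * d + 3 * (d * S) := by ring
  rw [e1]
  linarith

end Pool.Agent.Y141.HK
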